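import Pool.Agent.Helper79.SA.Goals

open MeasureTheory Filter Topology Set
open scoped Cardinal

noncomputable section

namespace SA.PkDAT

open SA Pool.Agent.Helper97.Ku

open Classical in
/-- Extension of a sequence of reals to a family indexed by `K`. -/
def zy {K : Type} (io : ℕ → K) (y : ℕ → Rl) : K → Rl :=
  fun c => if h : ∃ k, io k = c then y (Nat.find h) else fun _ => false

theorem zy_meas {K : Type} (io : ℕ → K) : Measurable (zy io) := by
  classical
  refine measurable_pi_iff.2 fun c => ?_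
  by_cases h : ∃ k, io k = c
  · have : (fun y : ℕ → Rl => zy io y c) = fun y => y (Nat.find h) := by
      funext y
      simp only [zy, dif_pos h]
    rw [this]
    exact measurable_pi_apply _
  · have : (fun y : ℕ → Rl => zy io y c) = fun _ => fun _ => false := by
      funext y
      simp only [zy, dif_neg h]
    rw [this]
    exact measurable_const

theorem zy_comp {K : Type} (io : ℕ → K) (z : K → Rl) (c : K) (h : ∃ k, io k = c) :
    zy io (fun k => z (io k)) c = z c := by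
  classical
  simp only [zy, dif_pos h]
  rw [Nat.find_spec h]

theorem dat (rd : G_RD) (sup_ : G_SUP) (co : G_CO) (car : G_CAR) : G_DAT := by
  classical
  intro K hK w p
  have hinf : Infinite K := by
    rw [Cardinal.infinite_iff, hK]
    exact Cardinal.aleph0_le_continuum.trans (Order.le_succ _)
  have hne : Nonempty K := inferInstance
  choose q hq h hm hv using fun ξ => rd K (w ξ) p
  choose sb hsbc hsb using fun ξ => sup_ K (h ξ) (hm ξ)
  have hac : ∀ ξ : K, ({ξ} ∪ {c | (q ξ).m c ≠ 1} ∪ {c | p.m c ≠ 1} ∪ sb ξ : Set K).Countable :=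
    fun ξ => (((countable_singleton ξ).union (q ξ).ct).union p.ct).union (hsbc ξ)
  have hex : ∀ ξ : K, ∃ e : ℕ → K,
      ({ξ} ∪ {c | (q ξ).m c ≠ 1} ∪ {c | p.m c ≠ 1} ∪ sb ξ : Set K) = range e :=
    fun ξ => (hac ξ).exists_eq_range ⟨ξ, by simp⟩
  choose e he using hex
  set io : K → ℕ → K := fun ξ k => Nat.casesOn k ξ (fun j => e ξ j) with hio
  have io0 : ∀ ξ, io ξ 0 = ξ := fun ξ => rfl
  have io1 : ∀ ξ k, io ξ (k + 1) = e ξ k := fun ξ k => rfl
  have hcov : ∀ ξ c, c ∈ ({ξ} ∪ {c | (q ξ).m c ≠ 1} ∪ {c | p.m c ≠ 1} ∪ sb ξ : Set K) →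
      ∃ k, io ξ k = c := by
    intro ξ c hc
    rw [he ξ] at hc
    obtain ⟨k, hk⟩ := hc
    exact ⟨k + 1, hk⟩
  set Bx : K → ℕ → Set (ℕ → Rl) := fun ξ n => {y | h ξ (zy (io ξ) y) n = true} with hBx
  have hBm : ∀ ξ n, MeasurableSet (Bx ξ n) := by
    intro ξ n
    have h1 : Measurable fun y : ℕ → Rl => h ξ (zy (io ξ) y) n :=
      (measurable_pi_apply n).comp ((hm ξ).comp (zy_meas (io ξ)))
    exact h1 (measurableSet_singleton true)
  have hBeq : ∀ ξ n (z : K → Rl), h ξ z n = true ↔ (fun k => z (io ξ k)) ∈ Bx ξ n := by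
    intro ξ n z
    have h1 : h ξ z = h ξ (zy (io ξ) fun k => z (io ξ k)) := by
      refine hsb ξ _ _ fun c hc => ?_
      exact (zy_comp (io ξ) z c (hcov ξ c (Or.inr hc))).symm
    simp only [hBx, mem_ofPred_eq, h1]
  set t : K → (ℕ → Mp) × (ℕ → {B : Set (ℕ → Rl) // MeasurableSet B}) :=
    fun ξ => (fun k => (q ξ).m (io ξ k), fun n => ⟨Bx ξ n, hBm ξ n⟩) with ht
  obtain ⟨ρ, t0, hρ, hco⟩ := co K _ hK car io t {c | p.m c ≠ 1} p.ct
    (fun ξ c hc => hcov ξ c (Or.inl (Or.inr hc)))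
  set r : Set K := {c | ∃ k, ρ k = some c} with hr
  have hrc : r.Countable := by
    have : r ⊆ ⋃ k : ℕ, {c | ρ k = some c} := by
      rintro c ⟨k, hk⟩
      exact mem_iUnion.2 ⟨k, hk⟩
    refine (countable_iUnion fun k => ?_).mono this
    refine Set.Subsingleton.countable fun c hc c' hc' => ?_
    have h1 : ρ k = some c := hc
    have h2 : ρ k = some c' := hc'
    rw [h1] at h2
    exact Option.some.inj h2
  set S : Set K := {ξ | t ξ = t0 ∧ ∀ k, ρ k = some (io ξ k) ∨ (ρ k = none ∧ io ξ k ∉ r)} with hS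
  let pr : Cnd K := ⟨fun c => if hc : ∃ k, ρ k = some c then t0.1 hc.choose else 1, by
    refine hrc.mono fun c hc => ?_
    by_contra hcr
    have hcr' : ¬ ∃ k, ρ k = some c := hcr
    exact hc (by simp only [dif_neg hcr'])⟩
  have hprS : ∀ ξ ∈ S, ∀ c ∈ r, (q ξ).m c = pr.m c := by
    intro ξ hξ c hc
    have hc' : ∃ k, ρ k = some c := hc
    have h1 : ρ hc'.choose = some c := hc'.choose_spec
    have h2 : io ξ hc'.choose = c := by
      rcases hξ.2 hc'.choose with h3 | h3
      · rw [h1] at h3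
        exact (Option.some.inj h3).symm
      · rw [h1] at h3
        exact absurd h3.1 (by simp)
    have h4 : t0.1 hc'.choose = (q ξ).m (io ξ hc'.choose) := by
      rw [← hξ.1]
    show (q ξ).m c = if hc : ∃ k, ρ k = some c then t0.1 hc.choose else 1
    rw [dif_pos hc', h4, h2]
  have hSb : ∀ b : Set K, b.Countable → ∃ ξ ∈ S, ξ ∉ b ∧ ∀ k, io ξ k ∈ b → io ξ k ∈ r := by
    intro b hb
    obtain ⟨ξ, h1, h2, h3⟩ := hco (b ∪ r) (hb.union hrc)
    refine ⟨ξ, ⟨h2, fun k => ?_⟩, fun h4 => h1 (Or.inl h4), fun k hk => ?_⟩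
    · rcases h3 k with h4 | h4
      · exact Or.inl h4
      · exact Or.inr ⟨h4.1, fun h5 => h4.2 (Or.inr h5)⟩
    · rcases h3 k with h4 | h4
      · exact ⟨k, h4⟩
      · exact absurd (Or.inl hk) h4.2
  refine ⟨⟨q, io, fun n => (t0.2 n).1, t0.1 0, S, r, pr, fun n => (t0.2 n).2, hrc, ?_, ?_, ?_,
    hprS, ?_, ?_, hSb⟩⟩
  · intro ξ hξ n
    have h1 : (t0.2 n).1 = Bx ξ n := by rw [← hξ.1]
    have h2 : {z : K → Rl | (fun k => z (io ξ k)) ∈ (t0.2 n).1} = {z | h ξ z n = true} := by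
      ext z
      rw [h1]
      exact (hBeq ξ n z).symm
    rw [h2]
    exact hv ξ n
  · intro ξ hξ
    rw [← hξ.1]
    rfl
  · intro ξ _ c hc
    exact hcov ξ c (Or.inl (Or.inl (Or.inr hc)))
  · intro c hc
    have hc' : ¬ ∃ k, ρ k = some c := hc
    show (if hc : ∃ k, ρ k = some c then t0.1 hc.choose else 1) = 1
    rw [dif_neg hc']
  · obtain ⟨ξ, hξ, _⟩ := hSb ∅ countable_empty
    obtain ⟨g, hg⟩ := hq ξ
    refine ⟨⟨fun c => if c ∈ r then g.m c else 1, g.ct.mono fun c hc => ?_⟩, ?_⟩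
    · by_contra h1
      have h1' : g.m c = 1 := by
        by_contra h2
        exact h1 h2
      apply hc
      by_cases h2 : c ∈ r
      · simp [h2, h1']
      · simp [h2]
    · refine Cnd.ext (funext fun c => ?_)
      rw [Cnd.mul_m]
      by_cases hc : c ∈ r
      · rw [← hprS ξ hξ c hc, hg, Cnd.mul_m]
        simp [hc]
      · have hc' : ¬ ∃ k, ρ k = some c := hc
        have h3 : pr.m c = 1 := by
          show (if hc : ∃ k, ρ k = some c then t0.1 hc.choose else 1) = 1
          rw [dif_neg hc']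
        have h4 : p.m c = 1 := by
          by_contra h5
          exact hc (hρ c h5)
        rw [h3, h4]
        simp [hc]

end SA.PkDAT
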